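import Pool.Agent.Helper14.WK.StA

/-! # Project WK, module KA1: the iterated primitives of a cusp form -/

set_option autoImplicit false

open UpperHalfPlane CongruenceSubgroup
open scoped MatrixGroups

namespace Pool.Agent.Helper63.WK

open Pool.Agent.Helper14.WK
open Pool.Agent.Helper14.CV (G0)

private lemma sp (N : ℕ) : (1 : ℝ) ∈ (G0 N).strictPeriods := by
  simp

private lemma hs {N : ℕ} (hN : NeZero N) {k : ℤ} (f : CuspForm (G0 N) k) (z : ℂ) (hz : 0 < z.im) :
    HasSum (fun m : ℕ => fcK f m * Complex.exp (2 * Real.pi * Complex.I * m * z)) (fzK f z) := by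
  have h := ModularForm.hasSum_qExpansion (F := CuspForm (G0 N) k) (k := k) f one_pos (sp N) ⟨z, hz⟩
  have e : fzK f z = f ⟨z, hz⟩ := by
    unfold fzK
    rw [UpperHalfPlane.ofComplex_apply_of_im_pos hz]
  rw [e]
  refine h.congr_fun ?_
  intro m
  unfold fcK Function.Periodic.qParam
  rw [← Complex.exp_nat_mul]
  congr 2
  push_cast
  simp only [div_one]
  ring

private lemma fc0 {N : ℕ} (hN : NeZero N) {k : ℤ} (f : CuspForm (G0 N) k) : fcK f 0 = 0 := by
  unfold fcK
  rw [UpperHalfPlane.qExpansion_coeff_zero one_pos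
    (ModularFormClass.analyticAt_cuspFunction_zero f one_pos (sp N))
    (SlashInvariantFormClass.periodic_comp_ofComplex f (sp N))]
  exact (CuspFormClass.zero_at_infty f).valueAtInfty_eq_zero

private lemma ne_exp (m : ℕ) (w : ℂ) : ‖Complex.exp (2 * Real.pi * Complex.I * m * w)‖ =
    Real.exp (-(2 * Real.pi * m * w.im)) := by
  rw [Complex.norm_exp]
  congr 1
  simp [Complex.mul_re, Complex.mul_im]

private lemma norm_den {m : ℕ} (hm : 0 < m) : 1 ≤ ‖2 * (Real.pi : ℂ) * Complex.I * (m : ℂ)‖ := by
  rw [norm_mul, norm_mul, norm_mul, Complex.norm_real, Real.norm_of_nonneg Real.pi_pos.le,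
    Complex.norm_I, mul_one, Complex.norm_natCast]
  have h1 : (1 : ℝ) ≤ m := by exact_mod_cast hm
  have h2 : ‖(2 : ℂ)‖ = 2 := by simp
  rw [h2]
  nlinarith [Real.pi_gt_three]

private lemma alg {c e D : ℂ} {i : ℕ} (hD : D ≠ 0) : c / D ^ (i + 1) * (e * D) = c / D ^ i * e := by
  rw [pow_succ]
  field_simp

private lemma term_le {N : ℕ} (hN : NeZero N) {k : ℤ} (f : CuspForm (G0 N) k) (i m : ℕ) (w : ℂ) :
    ‖fcK f m / (2 * Real.pi * Complex.I * m) ^ i * Complex.exp (2 * Real.pi * Complex.I * m * w)‖ ≤
      ‖fcK f m * Complex.exp (2 * Real.pi * Complex.I * m * w)‖ := by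
  rcases Nat.eq_zero_or_pos m with rfl | hm
  · simp [fc0 hN f]
  · rw [norm_mul, norm_mul, norm_div, norm_pow]
    exact mul_le_mul_of_nonneg_right
      (div_le_self (norm_nonneg _) (one_le_pow₀ (norm_den hm))) (norm_nonneg _)

theorem hKA1 : SKA1 := by
  intro N hN k f z hz
  have h1 := hs hN f z hz
  have hsum : ∀ i : ℕ, Summable fun m : ℕ => fcK f m / (2 * Real.pi * Complex.I * m) ^ i *
      Complex.exp (2 * Real.pi * Complex.I * m * z) := fun i =>
    Summable.of_norm_bounded h1.summable.norm fun m => term_le hN f i m z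
  have h0 : FpK f 0 z = fzK f z := by
    unfold FpK
    rw [← h1.tsum_eq]
    exact tsum_congr fun m => by rw [pow_zero, div_one]
  refine ⟨fc0 hN f, hsum, h1, h0, fun i => ?_⟩
  -- derivative
  set t : ℝ := z.im / 2 with ht
  have ht0 : 0 < t := by positivity
  have hzt : t < z.im := by
    rw [ht]
    linarith
  have hopen : IsOpen {w : ℂ | t < w.im} := isOpen_lt continuous_const Complex.continuous_im
  have hpre : IsPreconnected {w : ℂ | t < w.im} := (convex_halfSpace_im_gt t).isPreconnected
  have hu : Summable fun m : ℕ =>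
      ‖fcK f m * Complex.exp (2 * Real.pi * Complex.I * m * (t * Complex.I))‖ :=
    (hs hN f (t * Complex.I) (by simpa using ht0)).summable.norm
  have key := hasDerivAt_tsum_of_isPreconnected
    (g := fun (m : ℕ) (w : ℂ) => fcK f m / (2 * Real.pi * Complex.I * m) ^ (i + 1) *
      Complex.exp (2 * Real.pi * Complex.I * m * w))
    (g' := fun (m : ℕ) (w : ℂ) => fcK f m / (2 * Real.pi * Complex.I * m) ^ i *
      Complex.exp (2 * Real.pi * Complex.I * m * w))
    (u := fun m : ℕ =>
      ‖fcK f m * Complex.exp (2 * Real.pi * Complex.I * m * (t * Complex.I))‖)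
    (t := {w : ℂ | t < w.im}) (y₀ := z) (y := z) hu hopen hpre ?_ ?_ hzt (hsum (i + 1)) hzt
  · exact key
  · intro m w _
    have d1 : HasDerivAt (fun w : ℂ => 2 * Real.pi * Complex.I * m * w)
        (2 * Real.pi * Complex.I * m) w := by
      simpa using (hasDerivAt_id w).const_mul (2 * Real.pi * Complex.I * (m : ℂ))
    have d2 := (d1.cexp).const_mul (fcK f m / (2 * Real.pi * Complex.I * m) ^ (i + 1))
    rcases Nat.eq_zero_or_pos m with rfl | hm
    · have h0 := fc0 hN f
      simp only [h0, zero_div, zero_mul]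
      exact hasDerivAt_const w (0 : ℂ)
    · have hm0 : (2 * Real.pi * Complex.I * (m : ℂ)) ≠ 0 := by
        intro h
        have := norm_den hm
        rw [h, norm_zero] at this
        linarith
      have e : fcK f m / (2 * Real.pi * Complex.I * m) ^ (i + 1) *
          (Complex.exp (2 * Real.pi * Complex.I * m * w) * (2 * Real.pi * Complex.I * m)) =
          fcK f m / (2 * Real.pi * Complex.I * m) ^ i *
            Complex.exp (2 * Real.pi * Complex.I * m * w) := by
        exact alg hm0
      rw [e] at d2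
      exact d2
  · intro m w hw
    have hw' : t < w.im := hw
    refine (term_le hN f i m w).trans ?_
    have e2 : ((t : ℂ) * Complex.I).im = t := by simp
    rw [norm_mul, norm_mul, ne_exp, ne_exp, e2]
    apply mul_le_mul_of_nonneg_left _ (norm_nonneg _)
    apply Real.exp_le_exp.mpr
    have : 2 * Real.pi * (m : ℝ) * t ≤ 2 * Real.pi * m * w.im :=
      mul_le_mul_of_nonneg_left hw'.le (by positivity)
    linarith

end Pool.Agent.Helper63.WK
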