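import Pool.Agent.Helper28.WK.StA

/-!
# Project WK, module INT: integrality of psi
-/

set_option autoImplicit false

namespace Pool.Agent.Helper63.WK

open Pool.Agent.Helper14.CV Pool.Agent.Helper28.WK

/-- `ℂ` modulo the integers -/
private abbrev Q : Type := ℂ ⧸ (Int.castAddHom ℂ).range

private noncomputable def mk (x : ℂ) : Q := QuotientAddGroup.mk x

private theorem mk_eq_zero {x : ℂ} : mk x = 0 ↔ ∃ n : ℤ, (n : ℂ) = x := by
  unfold mk
  rw [QuotientAddGroup.eq_zero_iff]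
  rfl

private theorem mk_add (x y : ℂ) : mk (x + y) = mk x + mk y := rfl

theorem hInt : StInt := by
  intro hUI m ψ G hψ hG
  obtain ⟨k, hk⟩ := hG
  have hk' : ∀ p q : ℤ, (p ≠ 0 ∨ q ≠ 0) → ψ (2 * p) q - ψ p q = (G p q : ℂ) + k := by
    intro p q hpq
    have := hk p q hpq
    simpa [act] using this
  have hk1 : k = ((-G 1 0 : ℤ) : ℂ) := by
    have h1 := hk' 1 0 (Or.inl one_ne_zero)
    have h2 : ψ (2 * 1) 0 = ψ 1 0 := by
      have := hψ.1 2 1 0 two_ne_zero (Or.inl one_ne_zero)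
      simpa using this
    rw [h2, sub_self] at h1
    push_cast
    linear_combination -h1
  set χ : ℤ → ℤ → Q := fun p q => mk (ψ p q - ψ 1 0) with hχ
  have hS : Sym 0 m χ := by
    refine ⟨?_, ?_⟩
    · intro n p q hn hpq
      simp only [hχ]
      rw [hψ.1 n p q hn hpq]
    · intro a b c d hdet hb hc
      obtain ⟨κ, hκ⟩ := hψ.2 a b c d hdet hb hc
      refine ⟨mk κ, fun p q hpq => ?_⟩
      have h1 := hκ p q hpq
      simp only [hχ, act] at h1 ⊢
      rw [h1, ← mk_add]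
      congr 1
      ring
  have hu : EqC (act 2 0 0 1 χ) χ := by
    refine ⟨0, fun p q hpq => ?_⟩
    have h1 := hk' p q hpq
    have h2 : ψ (2 * p) q - ψ 1 0 = (ψ p q - ψ 1 0) + ((G p q - G 1 0 : ℤ) : ℂ) := by
      rw [hk1] at h1
      push_cast at h1 ⊢
      linear_combination h1
    have h3 : mk (((G p q - G 1 0 : ℤ) : ℂ)) = 0 := mk_eq_zero.2 ⟨_, rfl⟩
    have h4 : act 2 0 0 1 χ p q = mk (ψ (2 * p) q - ψ 1 0) := by
      simp [act, hχ]
    rw [h4, h2, mk_add, h3]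
  obtain ⟨c, hc⟩ := hUI Q inferInstance 0 m χ hS hu
  have hc0 : c = 0 := by
    have h1 := hc 1 0 (Or.inl one_ne_zero)
    have h2 : χ 1 0 = 0 := by
      simp only [hχ]
      rw [sub_self]
      exact mk_eq_zero.2 ⟨0, by simp⟩
    rw [h2] at h1
    simpa using h1.symm
  have hex : ∀ p q : ℤ, ∃ n : ℤ, (p ≠ 0 ∨ q ≠ 0) → (n : ℂ) = ψ p q - ψ 1 0 := by
    intro p q
    by_cases hpq : p ≠ 0 ∨ q ≠ 0
    · have h1 := hc p q hpq
      rw [hc0] at h1
      have h2 : mk (ψ p q - ψ 1 0) = 0 := by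
        simpa [hχ] using h1
      obtain ⟨n, hn⟩ := mk_eq_zero.1 h2
      exact ⟨n, fun _ => hn⟩
    · exact ⟨0, fun h => absurd h hpq⟩
  choose ψ' hψ' using hex
  refine ⟨ψ', ⟨?_, ?_⟩, ?_⟩
  · intro n p q hn hpq
    have h1 : (n * p ≠ 0 ∨ n * q ≠ 0) := by
      rcases hpq with h | h
      · exact Or.inl (mul_ne_zero hn h)
      · exact Or.inr (mul_ne_zero hn h)
    have h2 := hψ' (n * p) (n * q) h1
    have h3 := hψ' p q hpq
    rw [hψ.1 n p q hn hpq, ← h3] at h2
    exact_mod_cast h2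
  · intro a b c' d hdet hb hc'
    obtain ⟨κ, hκ⟩ := hψ.2 a b c' d hdet hb hc'
    have key : ∀ p q : ℤ, (p ≠ 0 ∨ q ≠ 0) →
        ((ψ' (a * p + b * q) (c' * p + d * q) : ℤ) : ℂ) = (ψ' p q : ℂ) + κ := by
      intro p q hpq
      have h1 := hκ p q hpq
      have h2 := hψ' (a * p + b * q) (c' * p + d * q)
        (ne_zero_of_det (by rw [hdet]; exact one_ne_zero) hpq)
      have h3 := hψ' p q hpq
      simp only [act] at h1
      rw [h2, h3, h1]
      ring
    refine ⟨ψ' (a * 1 + b * 0) (c' * 1 + d * 0) - ψ' 1 0, fun p q hpq => ?_⟩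
    have h1 := key p q hpq
    have h2 := key 1 0 (Or.inl one_ne_zero)
    have h3 : ((ψ' (a * p + b * q) (c' * p + d * q) : ℤ) : ℂ) =
        ((ψ' p q + (ψ' (a * 1 + b * 0) (c' * 1 + d * 0) - ψ' 1 0) : ℤ) : ℂ) := by
      push_cast
      rw [h1, h2]
      ring
    exact_mod_cast h3
  · refine ⟨-G 1 0, fun p q hpq => ?_⟩
    have h1 := hk' p q hpq
    have h2 := hψ' (2 * p) q (by
      rcases hpq with h | h
      · exact Or.inl (mul_ne_zero two_ne_zero h)
      · exact Or.inr h)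
    have h3 := hψ' p q hpq
    have h4 : ((ψ' (2 * p) q - ψ' p q : ℤ) : ℂ) = ((G p q + -G 1 0 : ℤ) : ℂ) := by
      push_cast
      rw [h2, h3]
      rw [hk1] at h1
      push_cast at h1
      linear_combination h1
    have h5 : ψ' (2 * p) q - ψ' p q = G p q + -G 1 0 := by exact_mod_cast h4
    simpa [act] using h5

end Pool.Agent.Helper63.WK
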